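import Mathlib
import Pool.Agent.N759.LC.Main2

/-! # MP_0ea415_nt: the points `(q_k β, q_{k+1} β)` modulo one and cubic numbers

Let `q_k` be the denominators of the convergents of a badly approximable number `α`, and suppose
that the points `(q_k β, q_{k+1} β)` of the torus have a limit point whose coordinates `χ₁`, `χ₂`
lie in a real number field of degree at most three. Then Littlewood's conjecture holds for
`(α, β)`, and if `1, χ₁, χ₂` are linearly independent over `ℚ`, then every real number `t ≥ 0` is a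
limit value of `q ‖qα‖ ‖qβ‖`. We prove this more generally: instead of consecutive convergents we
take any two approximations `p / q`, `p' / q'` of `α` of the same quality with determinant `±1`
(and `α` is arbitrary).
-/

set_option autoImplicit false

open Filter Topology

namespace Pool.Agent.Results.MP_0ea415_nt.CubicFaces

/-- `q ‖qα‖ ‖qβ‖` -/
noncomputable def littlewood (α β : ℝ) (q : ℕ) : ℝ :=
  (q : ℝ) * |(q : ℝ) * α - (round ((q : ℝ) * α) : ℝ)|
    * |(q : ℝ) * β - (round ((q : ℝ) * β) : ℝ)|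

/-- There are arbitrarily large `X` and pairs of approximations `p / q`, `p' / q'` of `α` with
determinant `±1`, with `|q|, |q'| ≤ C X` and `|α q - p|, |α q' - p'| ≤ C / X`, for which
`(q β, q' β)` is modulo one arbitrarily close to `(χ₁, χ₂)`. -/
def FaceLimit (α β χ₁ χ₂ C : ℝ) : Prop :=
  ∀ N : ℕ, ∃ X : ℝ, (N : ℝ) ≤ X ∧ ∃ q q' p p' n n' : ℤ, |q * p' - q' * p| = 1 ∧
    |(q : ℝ)| ≤ C * X ∧ |(q' : ℝ)| ≤ C * X ∧ |α * q - p| * X ≤ C ∧ |α * q' - p'| * X ≤ C ∧
    |β * q - n - χ₁| * N ≤ 1 ∧ |β * q' - n' - χ₂| * N ≤ 1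

theorem result (α β χ₁ χ₂ C : ℝ) (K : IntermediateField ℚ ℝ) [FiniteDimensional ℚ K]
    (hK : Module.finrank ℚ K ≤ 3) (h₁ : χ₁ ∈ K) (h₂ : χ₂ ∈ K) (h : FaceLimit α β χ₁ χ₂ C) :
    (∀ ε : ℝ, 0 < ε → ∀ N : ℕ, ∃ q : ℕ, N ≤ q ∧ 0 < q ∧ littlewood α β q < ε) ∧
    ((∀ a b c : ℤ, (a : ℝ) + b * χ₁ + c * χ₂ = 0 → a = 0 ∧ b = 0 ∧ c = 0) →
      ∀ t : ℝ, 0 ≤ t → MapClusterPt t atTop (littlewood α β)) :=
  ⟨Pool.Agent.N759.LC.face_LC K hK h₁ h₂ h, Pool.Agent.N759.LC.face_all K hK h₁ h₂ h⟩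

end Pool.Agent.Results.MP_0ea415_nt.CubicFaces
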