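import Mathlib
import Pool.Agent.N759.LC.Main1

/-! # MP_0ea415_nt: good approximations with cubic ratios

Let `X, Y → ∞` and let `(q_j, p_j, r_j)`, `j = 0, 1, 2`, be bases of `ℤ³` with
`q_j = O(X Y)`, `α q_j - p_j = O(1 / X)`, `β q_j - r_j = O(1 / Y)`. Suppose that
`(q_0, q_1, q_2) / (X Y)` or `X (α q_j - p_j)_j` or `Y (β q_j - r_j)_j` converges to a vector which
is proportional to a basis of a real cubic field. Then every real number `t ≥ 0`, in particular
`0`, is a limit value of `q ‖qα‖ ‖qβ‖`. The same holds for the bases `(k_j, m_j, n_j)` with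
`k_j + α m_j + β n_j = O(1 / (X Y))`, `m_j = O(X)`, `n_j = O(Y)`. So the bases of good
approximations of a counterexample to Littlewood's conjecture, which exist for all `X, Y`, have
no cubic limits. -/

set_option autoImplicit false

open Filter Topology

namespace Pool.Agent.Results.MP_0ea415_nt.CubicLimits

/-- `q ‖qα‖ ‖qβ‖` -/
noncomputable def littlewood (α β : ℝ) (q : ℕ) : ℝ :=
  (q : ℝ) * |(q : ℝ) * α - (round ((q : ℝ) * α) : ℝ)|
    * |(q : ℝ) * β - (round ((q : ℝ) * β) : ℝ)|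

/-- The columns `(q, p, r)` of the integral matrix `V` are replaced by
`(q / (X Y), X (α q - p), Y (β q - r))`. -/
noncomputable def rescaled (α β X Y : ℝ) (V : Matrix (Fin 3) (Fin 3) ℤ) :
    Matrix (Fin 3) (Fin 3) ℝ :=
  Matrix.of ![fun j => V 0 j / (X * Y), fun j => X * (α * V 0 j - V 1 j),
    fun j => Y * (β * V 0 j - V 2 j)]

/-- The columns `(k, m, n)` of the integral matrix `U` are replaced by
`(X Y (k + α m + β n), m / X, n / Y)`. -/
noncomputable def dualRescaled (α β X Y : ℝ) (U : Matrix (Fin 3) (Fin 3) ℤ) :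
    Matrix (Fin 3) (Fin 3) ℝ :=
  Matrix.of ![fun j => X * Y * (U 0 j + α * U 1 j + β * U 2 j), fun j => U 1 j / X,
    fun j => U 2 j / Y]

/-- There are arbitrarily large `X, Y` and unimodular matrices `V` such that the matrix `S X Y V`
is bounded by `C` and its row `i` is arbitrarily close to `w`. -/
def RowLimit (S : ℝ → ℝ → Matrix (Fin 3) (Fin 3) ℤ → Matrix (Fin 3) (Fin 3) ℝ) (C : ℝ) (i : Fin 3)
    (w : Fin 3 → ℝ) : Prop :=
  ∀ N : ℕ, ∃ X Y : ℝ, (N : ℝ) ≤ X ∧ (N : ℝ) ≤ Y ∧ ∃ V : Matrix (Fin 3) (Fin 3) ℤ,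
    |V.det| = 1 ∧ (∀ k j, |S X Y V k j| ≤ C) ∧ ∀ j, |S X Y V i j - w j| * N ≤ 1

theorem result (α β : ℝ) (K : IntermediateField ℚ ℝ) (hK : Module.finrank ℚ K = 3)
    (w : Fin 3 → ℝ) (s : ℝ) (hs : s ≠ 0) (hwK : ∀ j, s * w j ∈ K) (hw : LinearIndependent ℚ w)
    (C : ℝ) (i : Fin 3)
    (h : RowLimit (rescaled α β) C i w ∨ RowLimit (dualRescaled α β) C i w) :
    ∀ t : ℝ, 0 ≤ t → MapClusterPt t atTop (littlewood α β) := by
  intro t ht
  have : FiniteDimensional ℚ K := Module.finite_of_finrank_pos (by omega)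
  have hw' : ∀ m : Fin 3 → ℤ, ∑ j, w j * (m j : ℝ) = 0 → m = 0 := by
    intro m hm
    rw [← LinearIndependent.iff_fractionRing ℤ ℚ] at hw
    have h1 := Fintype.linearIndependent_iff.1 hw m (by
      rw [← hm]
      exact Finset.sum_congr rfl fun j _ => by rw [zsmul_eq_mul, mul_comm])
    exact funext h1
  rcases h with h | h
  · exact Pool.Agent.N759.LC.main_row K hK.le w s hs hwK hw' C i h t ht
  · exact Pool.Agent.N759.LC.main_dual K hK.le w s hs hwK hw' C i h t ht

end Pool.Agent.Results.MP_0ea415_nt.CubicLimits
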