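import Mathlib
import Pool.Agent.N759.NV.Lit

/-! # MP_0ea415_nt: the two-dimensional code of a counterexample has quadratic complexity

Let `ρ, σ > 1`. For a counterexample `(α, β)` to Littlewood's conjecture there are bases
`V(m, n) ∈ GL₃(ℤ)`, `m, n ≥ 0`, whose columns `(q, p, r)` satisfy `|q| ≤ C ρ^m σ^n`,
`|α q - p| ≤ C / ρ^m`, `|β q - r| ≤ C / σ^n`. The code of such a family gives at `(m, n)` the pair
of matrices `V(m, n)⁻¹ V(m+1, n)`, `V(m, n)⁻¹ V(m, n+1)`; it is a two-dimensional array of finitely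
many symbols. We show that in the code of a counterexample, for all `k, l ≥ 1`, every sufficiently
large window contains `⌈k/13⌉ ⌈l/13⌉` neighbouring positions at which the `k × l` blocks are
pairwise different; in particular every such window contains at least `k l / 169` different
`k × l` blocks. So the complexity of the code is at least quadratic, everywhere. Compare Nivat's
conjecture, that a two-dimensional array with at most `k l` blocks of size `k × l` for some `k, l`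
is periodic, and the theorem of Badziahin, Bugeaud, Einsiedler and Kleinbock on the complexity of
the continued fraction of a counterexample to the `p`-adic Littlewood conjecture. -/

set_option autoImplicit false

open Filter Topology

namespace Pool.Agent.Results.MP_0ea415_nt.QuadraticComplexity

/-- `q ‖qα‖ ‖qβ‖` -/
noncomputable def littlewood (α β : ℝ) (q : ℕ) : ℝ :=
  (q : ℝ) * |(q : ℝ) * α - (round ((q : ℝ) * α) : ℝ)|
    * |(q : ℝ) * β - (round ((q : ℝ) * β) : ℝ)|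

/-- `V m n` has determinant `±1`, and its columns `(q, p, r)` satisfy `|q| ≤ C ρ ^ m σ ^ n`,
`|α q - p| ≤ C / ρ ^ m`, `|β q - r| ≤ C / σ ^ n`. -/
def Good (α β ρ σ C : ℝ) (V : ℕ → ℕ → Matrix (Fin 3) (Fin 3) ℤ) : Prop :=
  ∀ m n : ℕ, |(V m n).det| = 1 ∧ ∀ k, |(V m n 0 k : ℝ)| ≤ C * (ρ ^ m * σ ^ n) ∧
    ρ ^ m * |α * V m n 0 k - V m n 1 k| ≤ C ∧ σ ^ n * |β * V m n 0 k - V m n 2 k| ≤ C

/-- the code -/
noncomputable def code (V : ℕ → ℕ → Matrix (Fin 3) (Fin 3) ℤ) (m n : ℕ) :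
    Matrix (Fin 3) (Fin 3) ℤ × Matrix (Fin 3) (Fin 3) ℤ :=
  ((V m n)⁻¹ * V (m + 1) n, (V m n)⁻¹ * V m (n + 1))

/-- the `k × l` block of the code at the position `(m, n)` -/
noncomputable def block (V : ℕ → ℕ → Matrix (Fin 3) (Fin 3) ℤ) (k l m n : ℕ) :
    Fin k → Fin l → Matrix (Fin 3) (Fin 3) ℤ × Matrix (Fin 3) (Fin 3) ℤ :=
  fun i j => code V (m + i) (n + j)

/-- windows with pairwise different blocks -/
theorem windows (α β ρ σ : ℝ) (hρ : 1 < ρ) (hσ : 1 < σ)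
    (h : ∃ ε : ℝ, 0 < ε ∧ ∃ N : ℕ, ∀ q : ℕ, N ≤ q → 0 < q → ε ≤ littlewood α β q)
    (C : ℝ) (V : ℕ → ℕ → Matrix (Fin 3) (Fin 3) ℤ) (hV : Good α β ρ σ C V) (k l : ℕ) :
    ∃ M : ℕ, ∀ m₀ n₀ : ℕ, M ≤ m₀ → M ≤ n₀ → ∃ m n : ℕ, m₀ ≤ m ∧ m ≤ m₀ + M ∧ n₀ ≤ n ∧
      n ≤ n₀ + M ∧ ∀ a b a' b' : ℕ, a < (k + 12) / 13 → b < (l + 12) / 13 →
      a' < (k + 12) / 13 → b' < (l + 12) / 13 →
      block V k l (m + a) (n + b) = block V k l (m + a') (n + b') → a = a' ∧ b = b' := by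
  by_contra hcon
  push Not at hcon
  obtain ⟨ε, hε, N', hq⟩ := h
  have hu : ∀ m n, IsUnit (V m n) := fun m n =>
    (Matrix.isUnit_iff_isUnit_det _).2 (Int.isUnit_iff_abs_eq.2 (hV m n).1)
  choose U hU using hu
  obtain ⟨q, hqN, hq0, hlt⟩ := Pool.Agent.N759.NV.littlewood_of_rep (α := α) (β := β) (C := C)
    (k := k) (l := l) hρ hσ U (fun m n i k => by
      have hρm : 0 < ρ ^ m := pow_pos (by linarith) m
      have hσn : 0 < σ ^ n := pow_pos (by linarith) n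
      obtain ⟨h1, h2, h3⟩ := (hV m n).2 k
      rw [hU]
      fin_cases i
      · show |(V m n 0 k : ℝ) / (ρ ^ m * σ ^ n)| ≤ C
        rw [abs_div, abs_of_pos (mul_pos hρm hσn), div_le_iff₀ (mul_pos hρm hσn)]
        exact h1
      · show |ρ ^ m * (α * V m n 0 k - V m n 1 k)| ≤ C
        rw [abs_mul, abs_of_pos hρm]
        exact h2
      · show |σ ^ n * (β * V m n 0 k - V m n 2 k)| ≤ C
        rw [abs_mul, abs_of_pos hσn]
        exact h3) (fun M => by
      obtain ⟨m₀, n₀, hm₀, hn₀, hwin⟩ := hcon M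
      refine ⟨![(m₀ : ℤ), (n₀ : ℤ)], fun i => ?_, fun z hz => ?_⟩
      · fin_cases i
        · show (M : ℤ) ≤ m₀
          exact_mod_cast hm₀
        · show (M : ℤ) ≤ n₀
          exact_mod_cast hn₀
      have hz0' : (m₀ : ℤ) ≤ z 0 ∧ z 0 ≤ m₀ + M := hz 0
      have hz1' : (n₀ : ℤ) ≤ z 1 ∧ z 1 ≤ n₀ + M := hz 1
      have hz0 : (0 : ℤ) ≤ z 0 := by omega
      have hz1 : (0 : ℤ) ≤ z 1 := by omega
      obtain ⟨a, b, a', b', ha, hb, ha', hb', heq, hne⟩ := hwin (z 0).toNat (z 1).toNat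
        (by omega) (by omega) (by omega) (by omega)
      refine ⟨(⟨a, ha⟩, ⟨b, hb⟩), (⟨a', ha'⟩, ⟨b', hb'⟩), ?_, fun i j => ?_⟩
      · intro h0
        have h1 := congrArg (fun x => ((x.1 : ℕ))) h0
        have h2 := congrArg (fun x => ((x.2 : ℕ))) h0
        exact hne h1 h2
      · have hg : ∀ (x y : ℕ) (p q : ℤ), z 0 + p + q = x → ∀ p' q' : ℤ, z 1 + p' + q' = y →
            ((Pool.Agent.N759.NV.gcode (fun z : Fin 2 → ℤ => U (z 0).toNat (z 1).toNat)
              (![z 0 + p, z 1 + p'] + ![q, q'])).1 : Matrix (Fin 3) (Fin 3) ℤ) = (code V x y).1 ∧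
            ((Pool.Agent.N759.NV.gcode (fun z : Fin 2 → ℤ => U (z 0).toNat (z 1).toNat)
              (![z 0 + p, z 1 + p'] + ![q, q'])).2 : Matrix (Fin 3) (Fin 3) ℤ) = (code V x y).2 := by
          intro x y p q hx p' q' hy
          have e0 : (![z 0 + p, z 1 + p'] + ![q, q']) = ![(x : ℤ), (y : ℤ)] := by
            funext i
            fin_cases i
            · exact hx
            · exact hy
          rw [e0]
          unfold Pool.Agent.N759.NV.gcode code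
          simp only [Units.val_mul, Matrix.coe_units_inv, hU]
          have e1 : (![(x : ℤ), (y : ℤ)] + ![1, 0]) = ![((x + 1 : ℕ) : ℤ), (y : ℤ)] := by
            funext i; fin_cases i <;> simp
          have e2 : (![(x : ℤ), (y : ℤ)] + ![0, 1]) = ![(x : ℤ), ((y + 1 : ℕ) : ℤ)] := by
            funext i; fin_cases i <;> simp
          rw [e1, e2]
          exact ⟨rfl, rfl⟩
        have h1 := congrFun (congrFun heq i) j
        have g1 := hg ((z 0).toNat + a + i) ((z 1).toNat + b + j) a i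
          (by push_cast; rw [Int.toNat_of_nonneg hz0]) b j
          (by push_cast; rw [Int.toNat_of_nonneg hz1])
        have g2 := hg ((z 0).toNat + a' + i) ((z 1).toNat + b' + j) a' i
          (by push_cast; rw [Int.toNat_of_nonneg hz0]) b' j
          (by push_cast; rw [Int.toNat_of_nonneg hz1])
        have h1' : code V ((z 0).toNat + a + i) ((z 1).toNat + b + j) =
            code V ((z 0).toNat + a' + i) ((z 1).toNat + b' + j) := h1
        refine Prod.ext (Units.ext ?_) (Units.ext ?_)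
        · exact g1.1.trans ((congrArg Prod.fst h1').trans g2.1.symm)
        · exact g1.2.trans ((congrArg Prod.snd h1').trans g2.2.symm)) ε hε N'
  exact absurd hlt (not_lt.2 (hq q hqN hq0))

theorem result (α β ρ σ : ℝ) (hρ : 1 < ρ) (hσ : 1 < σ)
    (h : ∃ ε : ℝ, 0 < ε ∧ ∃ N : ℕ, ∀ q : ℕ, N ≤ q → 0 < q → ε ≤ littlewood α β q) :
    (∃ C : ℝ, ∃ V : ℕ → ℕ → Matrix (Fin 3) (Fin 3) ℤ, Good α β ρ σ C V) ∧
    ∀ (C : ℝ) (V : ℕ → ℕ → Matrix (Fin 3) (Fin 3) ℤ), Good α β ρ σ C V → ∀ k l : ℕ,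
      ∃ M : ℕ, ∀ m₀ n₀ : ℕ, M ≤ m₀ → M ≤ n₀ →
        (∃ m n : ℕ, m₀ ≤ m ∧ m ≤ m₀ + M ∧ n₀ ≤ n ∧ n ≤ n₀ + M ∧ ∀ a b a' b' : ℕ,
          a < (k + 12) / 13 → b < (l + 12) / 13 → a' < (k + 12) / 13 → b' < (l + 12) / 13 →
          block V k l (m + a) (n + b) = block V k l (m + a') (n + b') → a = a' ∧ b = b') ∧
        ((k * l : ℕ) : ℕ∞) ≤ 169 * {B | ∃ m n : ℕ, m₀ ≤ m ∧ m ≤ m₀ + M ∧ n₀ ≤ n ∧ n ≤ n₀ + M ∧
          B = block V k l m n}.encard := by
  constructor
  · obtain ⟨ε, hε, N, hq⟩ := h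
    obtain ⟨ν, hν0, hν⟩ := H715R2.exists_nu hε hq
    obtain ⟨C, hC⟩ := Pool.Agent.N759.NV.exists_good_bases hν0 hν
    choose V hV hV2 using fun m n : ℕ => hC (ρ ^ m) (σ ^ n) (one_le_pow₀ hρ.le) (one_le_pow₀ hσ.le)
    exact ⟨C, V, fun m n => ⟨hV m n, hV2 m n⟩⟩
  · intro C V hV k l
    obtain ⟨M, hM⟩ := windows α β ρ σ hρ hσ h C V hV k l
    refine ⟨M + k + l, fun m₀ n₀ hm₀ hn₀ => ?_⟩
    obtain ⟨m, n, hm, hm', hn, hn', hinj⟩ := hM m₀ n₀ (by omega) (by omega)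
    refine ⟨⟨m, n, hm, by omega, hn, by omega, hinj⟩, ?_⟩
    set q0 := (k + 12) / 13 with hq0
    set q1 := (l + 12) / 13 with hq1
    set f : Fin q0 × Fin q1 →
        (Fin k → Fin l → Matrix (Fin 3) (Fin 3) ℤ × Matrix (Fin 3) (Fin 3) ℤ) :=
      fun x => block V k l (m + x.1) (n + x.2) with hf
    have hfi : Function.Injective f := by
      intro x y hxy
      obtain ⟨h1, h2⟩ := hinj _ _ _ _ x.1.2 x.2.2 y.1.2 y.2.2 hxy
      exact Prod.ext (Fin.ext h1) (Fin.ext h2)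
    have hsub : Set.range f ⊆ {B | ∃ m n : ℕ, m₀ ≤ m ∧ m ≤ m₀ + (M + k + l) ∧ n₀ ≤ n ∧
        n ≤ n₀ + (M + k + l) ∧ B = block V k l m n} := by
      rintro _ ⟨x, rfl⟩
      have h1 := x.1.2
      have h2 := x.2.2
      exact ⟨_, _, by omega, by omega, by omega, by omega, rfl⟩
    have h1 := Set.encard_le_encard hsub
    rw [← Set.image_univ, hfi.encard_image, Set.encard_univ, ENat.card_eq_coe_fintype_card,
      Fintype.card_prod, Fintype.card_fin, Fintype.card_fin] at h1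
    have h2 : k * l ≤ 169 * (q0 * q1) := by
      have h3 : k ≤ 13 * q0 := by omega
      have h4 : l ≤ 13 * q1 := by omega
      calc k * l ≤ (13 * q0) * (13 * q1) := Nat.mul_le_mul h3 h4
        _ = 169 * (q0 * q1) := by ring
    calc ((k * l : ℕ) : ℕ∞) ≤ ((169 * (q0 * q1) : ℕ) : ℕ∞) := by exact_mod_cast h2
      _ = 169 * ((q0 * q1 : ℕ) : ℕ∞) := by push_cast; rfl
      _ ≤ _ := by gcongr

end Pool.Agent.Results.MP_0ea415_nt.QuadraticComplexity
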