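import Mathlib
import Pool.Agent.N759.LC.Word3

/-! # MP_0ea415_nt: codes with long powers of a fixed word

Let `X, Y > 0`. A basis `(q_j, p_j, r_j)`, `j = 0, 1, 2`, of `ℤ³` is good for `(α, β)` with the
constant `C` and the scales `X, Y` if `|q_j| ≤ C X Y`, `|α q_j - p_j| ≤ C / X` and
`|β q_j - r_j| ≤ C / Y`. Let `W` be an integral matrix of determinant `±1` and of infinite order. We
show: if for every `m` there is an integral matrix `V` of determinant `±1` such that the columns
of `V, V W, V W², ..., V W ^ m` are good bases with a fixed constant and scales at least `m`, then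
Littlewood's conjecture holds for `(α, β)`; and if the characteristic polynomial of `W` is
irreducible, then every real number `t ≥ 0` is a limit value of `q ‖qα‖ ‖qβ‖`.

So if an expansion `V_k = A_1 A_2 ... A_k` of `(α, β)` into matrices of determinant `±1` gives good
bases, then its code `A_1, A_2, ...` contains only bounded powers of every word whose product has
infinite order, unless Littlewood's conjecture is true for `(α, β)`. For `α, β` in a complex cubic field such
codes are eventually periodic; this is a case of the theorem of Cassels and Swinnerton-Dyer. -/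

set_option autoImplicit false

open Filter Topology

namespace Pool.Agent.Results.MP_0ea415_nt.WordPowers

/-- `q ‖qα‖ ‖qβ‖` -/
noncomputable def littlewood (α β : ℝ) (q : ℕ) : ℝ :=
  (q : ℝ) * |(q : ℝ) * α - (round ((q : ℝ) * α) : ℝ)|
    * |(q : ℝ) * β - (round ((q : ℝ) * β) : ℝ)|

/-- The columns `(q, p, r)` of `V` satisfy `|q| ≤ C X Y`, `|α q - p| ≤ C / X`, `|β q - r| ≤ C / Y`
for some `X, Y ≥ N`. -/
def Good (α β C N : ℝ) (V : Matrix (Fin 3) (Fin 3) ℤ) : Prop :=
  ∃ X Y : ℝ, N ≤ X ∧ N ≤ Y ∧ ∀ k, |(V 0 k : ℝ)| ≤ C * (X * Y) ∧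
    X * |α * V 0 k - V 1 k| ≤ C ∧ Y * |β * V 0 k - V 2 k| ≤ C

theorem result (α β C : ℝ) (W : Matrix (Fin 3) (Fin 3) ℤ) (hW : |W.det| = 1)
    (hinf : ∀ n : ℕ, 0 < n → W ^ n ≠ 1)
    (h : ∀ m : ℕ, ∃ V : Matrix (Fin 3) (Fin 3) ℤ, |V.det| = 1 ∧
      ∀ j : ℕ, j ≤ m → Good α β C m (V * W ^ j)) :
    (∀ ε : ℝ, 0 < ε → ∀ N : ℕ, ∃ q : ℕ, N ≤ q ∧ 0 < q ∧ littlewood α β q < ε) ∧
    (Irreducible (W.charpoly.map (Int.castRingHom ℚ)) →
      ∀ t : ℝ, 0 ≤ t → MapClusterPt t atTop (littlewood α β)) := by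
  have hWu : IsUnit W := (Matrix.isUnit_iff_isUnit_det _).2 (Int.isUnit_iff_abs_eq.2 hW)
  obtain ⟨U, hU⟩ := hWu
  have h' : ∀ m : ℕ, ∃ V : Matrix (Fin 3) (Fin 3) ℤ, |V.det| = 1 ∧ ∀ j : ℕ, j ≤ m →
      ∃ X Y : ℝ, (m : ℝ) ≤ X ∧ (m : ℝ) ≤ Y ∧
        ∀ i k, |Pool.Agent.N759.LC.sc α β X Y (V * (U : Matrix (Fin 3) (Fin 3) ℤ) ^ j) i k| ≤ C := by
    intro m
    obtain ⟨V, hV, hg⟩ := h (m + 1)
    refine ⟨V, hV, fun j hj => ?_⟩
    obtain ⟨X, Y, hX, hY, hXY⟩ := hg j (by omega)
    push_cast at hX hY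
    have hm : (0 : ℝ) ≤ m := Nat.cast_nonneg m
    have hX0 : 0 < X := by linarith
    have hY0 : 0 < Y := by linarith
    refine ⟨X, Y, by linarith, by linarith, ?_⟩
    rw [hU]
    intro i k
    obtain ⟨h1, h2, h3⟩ := hXY k
    have hXY0 : 0 < X * Y := mul_pos hX0 hY0
    fin_cases i
    · show |((V * W ^ j) 0 k : ℝ) / (X * Y)| ≤ C
      rw [abs_div, abs_of_pos hXY0, div_le_iff₀ hXY0]
      exact h1
    · show |X * (α * (V * W ^ j) 0 k - (V * W ^ j) 1 k)| ≤ C
      rw [abs_mul, abs_of_pos hX0]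
      exact h2
    · show |Y * (β * (V * W ^ j) 0 k - (V * W ^ j) 2 k)| ≤ C
      rw [abs_mul, abs_of_pos hY0]
      exact h3
  constructor
  · refine Pool.Agent.N759.LC.word_LC U ?_ h'
    intro n hn h1
    apply hinf n hn
    rw [← hU, ← Units.val_pow_eq_pow_val, h1, Units.val_one]
  · intro hirr
    refine Pool.Agent.N759.LC.word_all U ?_ h'
    -- no eigenvalue `±1`
    have key : ∀ (m : Fin 3 → ℤ) (n : ℤ), m ≠ 0 → Matrix.mulVec W m ≠ n • m := by
      intro m n hm h1
      have h2 : (Matrix.scalar (Fin 3) n - W).det = 0 := by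
        rw [← Matrix.exists_mulVec_eq_zero_iff]
        refine ⟨m, hm, ?_⟩
        rw [Matrix.sub_mulVec, h1, sub_eq_zero]
        funext i
        simp
      rw [← Matrix.eval_charpoly] at h2
      have h3 : (W.charpoly.map (Int.castRingHom ℚ)).IsRoot (n : ℚ) := by
        rw [Polynomial.IsRoot.def, Polynomial.eval_map]
        have h4 := Polynomial.eval₂_hom (Int.castRingHom ℚ) n (p := W.charpoly)
        rw [h2, map_zero] at h4
        exact h4
      have h4 := Polynomial.degree_eq_one_of_irreducible_of_root hirr h3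
      have h5 : (W.charpoly.map (Int.castRingHom ℚ)).natDegree = 3 := by
        rw [(Matrix.charpoly_monic W).natDegree_map, Matrix.charpoly_natDegree_eq_dim,
          Fintype.card_fin]
      rw [Polynomial.degree_eq_natDegree hirr.ne_zero, h5] at h4
      norm_num at h4
    intro m hm
    rw [hU]
    refine ⟨fun h1 => key m 1 hm (by rw [h1, one_smul]), fun h1 => key m (-1) hm ?_⟩
    rw [h1, neg_one_smul]

end Pool.Agent.Results.MP_0ea415_nt.WordPowers
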